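import Mathlib

/-!
# Monochromatic exponential patterns of type II (helper file)

Main result: `exists_seq`: for every finite colouring `c` of `ℕ` there are a colour `A` and a
strictly increasing sequence `a` such that all iterated products `2 ^ e * a n`, with `e = 0` or `e`
an earlier product, have colour `A`.
-/

set_option autoImplicit false

namespace Pool.Agent.P8H31.ExpIP

open Set Topology

section minimal
variable {X : Type*} [TopologicalSpace X] [CompactSpace X] {ι : Type*}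

/-- closed nonempty invariant sets -/
def Inv (F : ι → X → X) (Z : Set X) : Prop :=
  IsClosed Z ∧ Z.Nonempty ∧ ∀ i, ∀ z ∈ Z, F i z ∈ Z

theorem exists_minimal (F : ι → X → X) (W : Set X) (hW : Inv F W) :
    ∃ Z, Z ⊆ W ∧ Inv F Z ∧ ∀ Z', Z' ⊆ Z → Inv F Z' → Z' = Z := by
  obtain ⟨m, hmW, hm⟩ := zorn_superset_nonempty {Z | Inv F Z} (by
    intro c hc hchain hne
    refine ⟨⋂₀ c, ⟨isClosed_sInter fun s hs => (hc hs).1, ?_, ?_⟩, fun s hs => sInter_subset_of_mem hs⟩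
    · have : Nonempty c := hne.to_subtype
      have hdir : DirectedOn (· ⊇ ·) c := by
        intro x hx y hy
        rcases hchain.total hx hy with h | h
        · exact ⟨x, hx, subset_rfl, h⟩
        · exact ⟨y, hy, h, subset_rfl⟩
      exact IsCompact.nonempty_sInter_of_directed_nonempty_isCompact_isClosed hdir
        (fun s hs => (hc hs).2.1) (fun s hs => (hc hs).1.isCompact) (fun s hs => (hc hs).1)
    · intro i z hz s hs
      exact (hc hs).2.2 i z (hz s hs)) W hW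
  refine ⟨m, hmW, hm.prop, fun Z' hZ' hI => ?_⟩
  exact Subset.antisymm hZ' (hm.le_of_le hI hZ')

theorem syndetic [T2Space X] (F : ι → X → X) (hc : ∀ i, Continuous (F i))
    (hcomp : ∀ i j, ∃ k, ∀ x, F i (F j x) = F k x) [Nonempty ι]
    (Z : Set X) (hZ : Inv F Z) (hmin : ∀ Z', Z' ⊆ Z → Inv F Z' → Z' = Z)
    (U : Set X) (hU : IsOpen U) (hne : (Z ∩ U).Nonempty) :
    ∃ K : Finset ι, ∀ z ∈ Z, ∃ i ∈ K, F i z ∈ U := by
  have key : ∀ z ∈ Z, ∃ i, F i z ∈ U := by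
    intro z hz
    have hO : closure (range fun i => F i z) = Z := by
      refine hmin _ ?_ ⟨isClosed_closure, (range_nonempty _).closure, ?_⟩
      · exact closure_minimal (by rintro _ ⟨i, rfl⟩; exact hZ.2.2 i z hz) hZ.1
      · intro i y hy
        have h1 : F i y ∈ closure (F i '' (range fun i => F i z)) :=
          (image_closure_subset_closure_image (hc i)) (mem_image_of_mem _ hy)
        refine closure_mono ?_ h1
        rintro _ ⟨_, ⟨j, rfl⟩, rfl⟩
        obtain ⟨k, hk⟩ := hcomp i j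
        exact ⟨k, (hk z).symm⟩
    obtain ⟨y, hyZ, hyU⟩ := hne
    rw [← hO] at hyZ
    obtain ⟨w, hw, ⟨i, rfl⟩⟩ := mem_closure_iff.1 hyZ U hU hyU
    exact ⟨i, hw⟩
  obtain ⟨K, hK⟩ := hZ.1.isCompact.elim_finite_subcover (fun i => F i ⁻¹' U)
    (fun i => hU.preimage (hc i)) (fun z hz => by
      obtain ⟨i, hi⟩ := key z hz
      exact mem_iUnion.2 ⟨i, hi⟩)
  refine ⟨K, fun z hz => ?_⟩
  have := hK hz
  simp only [mem_iUnion, mem_preimage] at this
  obtain ⟨i, hi, h⟩ := this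
  exact ⟨i, hi, h⟩

end minimal

/-- van der Waerden's theorem with a bounded ratio -/
theorem vdw (S : Finset ℕ) (κ : Type*) [Finite κ] :
    ∃ n : ℕ, ∀ C : ℕ → κ, ∃ a b : ℕ, 1 ≤ a ∧ a ≤ n ∧ ∃ t, ∀ s ∈ S, C (a * s + b) = t := by
  classical
  obtain ⟨ι, _inst, hι⟩ := Combinatorics.Line.exists_mono_in_high_dimension S κ
  refine ⟨Fintype.card ι, fun C => ?_⟩
  obtain ⟨l, c, hl⟩ := hι fun v => C (∑ i, (v i : ℕ))
  set s : Finset ι := {i | l.idxFun i = none} with hs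
  refine ⟨s.card, ∑ i ∈ sᶜ, ((l.idxFun i).map (fun x : S => (x : ℕ))).getD 0,
    Finset.card_pos.mpr ⟨l.proper.choose, ?_⟩, Finset.card_le_univ _, c, ?_⟩
  · rw [hs, Finset.mem_filter]
    exact ⟨Finset.mem_univ _, l.proper.choose_spec⟩
  · intro x xs
    rw [← hl ⟨x, xs⟩]
    clear hl
    congr
    rw [← Finset.sum_add_sum_compl s]
    congr 1
    · rw [← smul_eq_mul, ← Finset.sum_const]
      apply Finset.sum_congr rfl
      intro i hi
      rw [hs, Finset.mem_filter] at hi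
      rw [l.apply_none _ _ hi.right, Subtype.coe_mk]
    · apply Finset.sum_congr rfl
      intro i hi
      rw [hs, Finset.compl_filter, Finset.mem_filter] at hi
      obtain ⟨y, hy⟩ := Option.ne_none_iff_exists.mp hi.right
      simp [← hy, Option.map_some, Option.getD]

section recur
variable {κ : Type} [Finite κ] [TopologicalSpace κ] [DiscreteTopology κ]

/-- dilations -/
def mulAct (k : ℕ+) (φ : ℕ → κ) : ℕ → κ := fun b => φ ((k : ℕ) * b)

/-- shifts -/
def shiftAct (n : ℕ) (φ : ℕ → κ) : ℕ → κ := fun b => φ (n + b)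

/-- the doubling line of `φ` through `b` -/
def line (φ : ℕ → κ) (b : ℕ+) : ℕ → κ := fun i => φ (2 ^ i * (b : ℕ))

omit [Finite κ] [DiscreteTopology κ] in
theorem mulAct_cont (k : ℕ+) : Continuous (mulAct (κ := κ) k) :=
  continuous_pi fun b => continuous_apply ((k : ℕ) * b)

omit [Finite κ] [DiscreteTopology κ] in
theorem shiftAct_cont (n : ℕ) : Continuous (shiftAct (κ := κ) n) :=
  continuous_pi fun b => continuous_apply (n + b)

omit [Finite κ] in
theorem isOpen_cyl {J : Type*} (T : Finset J) (f : J → ℕ) (g : J → κ) :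
    IsOpen {ψ : ℕ → κ | ∀ j ∈ T, ψ (f j) = g j} := by
  have : {ψ : ℕ → κ | ∀ j ∈ T, ψ (f j) = g j} = ⋂ j ∈ T, (fun ψ : ℕ → κ => ψ (f j)) ⁻¹' {g j} := by
    ext ψ; simp
  rw [this]
  exact isOpen_biInter_finset fun j _ => (isOpen_discrete _).preimage (continuous_apply _)

theorem recurrence (c : ℕ → κ) : ∃ M : Set (ℕ → κ), M.Nonempty ∧
    ∀ ζ ∈ M, ∀ (L : ℕ) (D : Finset ℕ) (B : ℕ), ∃ b, B < b ∧ (∀ i < L, c (2 ^ i * b) = ζ i) ∧
      ∃ ζ' ∈ M, (∀ i < L, ζ' i = ζ i) ∧ ∀ d ∈ D, ∀ i < L, ζ' (2 ^ d * b + i) = ζ i := by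
  classical
  -- the dilation-invariant set
  set W : Set (ℕ → κ) := ⋂ B : ℕ, closure ((fun x : ℕ+ => mulAct x c) '' {x | B ≤ (x : ℕ)})
    with hW
  have hWI : Inv mulAct W := by
    refine ⟨isClosed_iInter fun _ => isClosed_closure, ?_, ?_⟩
    · refine IsCompact.nonempty_iInter_of_sequence_nonempty_isCompact_isClosed _ ?_ ?_
        isClosed_closure.isCompact (fun _ => isClosed_closure)
      · intro B
        refine closure_mono (image_mono ?_)
        intro x hx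
        simp only [mem_ofPred_eq] at hx ⊢
        omega
      · intro B
        refine Nonempty.closure ⟨_, mem_image_of_mem _ (?_ : (⟨B + 1, by omega⟩ : ℕ+) ∈ _)⟩
        exact Nat.le_succ B
    · intro k z hz
      rw [hW, mem_iInter] at hz ⊢
      intro B
      have h1 := (image_closure_subset_closure_image (mulAct_cont (κ := κ) k))
        (mem_image_of_mem _ (hz B))
      refine closure_mono ?_ h1
      rintro _ ⟨_, ⟨x, hx, rfl⟩, rfl⟩
      refine ⟨x * k, ?_, ?_⟩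
      · simp only [mem_ofPred_eq, PNat.mul_coe] at hx ⊢
        exact le_trans hx (Nat.le_mul_of_pos_right _ k.pos)
      · funext b
        simp [mulAct, mul_assoc]
  obtain ⟨Z, hZW, hZ, hZmin⟩ := exists_minimal mulAct W hWI
  obtain ⟨φ, hφ⟩ := hZ.2.1
  set Y : Set (ℕ → κ) := closure (range (line φ)) with hY
  have hYI : Inv shiftAct Y := by
    refine ⟨isClosed_closure, (range_nonempty _).closure, ?_⟩
    intro n z hz
    have h1 := (image_closure_subset_closure_image (shiftAct_cont (κ := κ) n))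
      (mem_image_of_mem _ hz)
    refine closure_mono ?_ h1
    rintro _ ⟨_, ⟨b, rfl⟩, rfl⟩
    refine ⟨⟨2 ^ n * b, by positivity⟩, ?_⟩
    funext i
    simp only [line, shiftAct, PNat.mk_coe]
    congr 1
    ring
  obtain ⟨M, hMY, hM, hMmin⟩ := exists_minimal shiftAct Y hYI
  refine ⟨M, hM.2.1, ?_⟩
  intro ζ hζ L D B
  have hUo : IsOpen {ψ : ℕ → κ | ∀ i ∈ Finset.range L, ψ i = ζ i} :=
    isOpen_cyl (Finset.range L) (fun i => i) (fun i => ζ i)
  obtain ⟨_, hb0, ⟨b0, rfl⟩⟩ := mem_closure_iff.1 (hMY hζ) _ hUo (by simp)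
  have hVo : IsOpen {ψ : ℕ → κ | ∀ i ∈ Finset.range L, ψ (2 ^ i * b0) = ζ i} :=
    isOpen_cyl (Finset.range L) (fun i => 2 ^ i * (b0 : ℕ)) (fun i => ζ i)
  obtain ⟨K, hK⟩ := syndetic mulAct mulAct_cont (fun i j => ⟨j * i, fun x => by
    funext b; simp [mulAct, mul_assoc]⟩) Z hZ hZmin _ hVo ⟨φ, hφ, hb0⟩
  obtain ⟨G, hG⟩ := syndetic shiftAct shiftAct_cont (fun i j => ⟨j + i, fun x => by
    funext b; simp [shiftAct, add_assoc]⟩) M hM hMmin _ hUo ⟨ζ, hζ, by simp⟩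
  set S : Finset ℕ := insert 0 ((D ×ˢ K).image fun p => 2 ^ p.1 * ((p.2 : ℕ) * b0)) with hS
  obtain ⟨n, hn⟩ := vdw S G
  have hOo : IsOpen {ψ : ℕ → κ | ∀ j ∈ (Finset.range (n + 1) ×ˢ K) ×ˢ Finset.range L,
      ψ (j.1.1 * (j.1.2 * (2 ^ j.2 * b0))) = φ (j.1.1 * (j.1.2 * (2 ^ j.2 * b0)))} :=
    isOpen_cyl ((Finset.range (n + 1) ×ˢ K) ×ˢ Finset.range L)
      (fun j => j.1.1 * (j.1.2 * (2 ^ j.2 * b0))) (fun j => φ (j.1.1 * (j.1.2 * (2 ^ j.2 * b0))))
  have hφW := hZW hφ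
  rw [hW, mem_iInter] at hφW
  obtain ⟨_, hx1, ⟨x, hx2, rfl⟩⟩ := mem_closure_iff.1 (hφW (B + 1)) _ hOo (by intro j _; rfl)
  have hC : ∀ j : ℕ, ∃ t : G, shiftAct (t : ℕ) (shiftAct (j * x) ζ) ∈
      {ψ : ℕ → κ | ∀ i ∈ Finset.range L, ψ i = ζ i} := by
    intro j
    obtain ⟨t, ht, h⟩ := hG (shiftAct (j * x) ζ) (hM.2.2 _ _ hζ)
    exact ⟨⟨t, ht⟩, h⟩
  choose C hC using hC
  obtain ⟨a, b, ha1, han, t, ht⟩ := hn C
  obtain ⟨k, hkK, hk⟩ := hK (mulAct ⟨a, ha1⟩ φ) (hZ.2.2 _ _ hφ)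
  simp only [mem_ofPred_eq, mulAct, PNat.mk_coe, Finset.mem_range] at hk
  refine ⟨x * (a * (k * b0)), ?_, ?_, ?_⟩
  · have h1 : 1 ≤ a * ((k : ℕ) * b0) := Nat.mul_pos ha1 (Nat.mul_pos k.pos b0.pos)
    have h2 : B + 1 ≤ (x : ℕ) := hx2
    nlinarith
  · intro i hi
    have h1 := hx1 ((a, k), i) (by simp [hkK, hi]; omega)
    simp only [mulAct] at h1
    rw [show 2 ^ i * ((x : ℕ) * (a * (k * b0))) = x * (a * (k * (2 ^ i * b0))) by ring, h1]
    exact hk i hi
  · refine ⟨shiftAct t (shiftAct (b * x) ζ), hM.2.2 _ _ (hM.2.2 _ _ hζ), ?_, ?_⟩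
    · intro i hi
      have h0 := ht 0 (by simp [hS])
      have h1 := hC (a * 0 + b)
      rw [h0] at h1
      simpa using h1 i (by simpa using hi)
    · intro d hd i hi
      have h0 := ht (2 ^ d * (k * b0)) (by
        rw [hS]
        exact Finset.mem_insert_of_mem (Finset.mem_image.2 ⟨(d, k), by simp [hd, hkK], rfl⟩))
      have h1 := hC (a * (2 ^ d * (k * b0)) + b)
      rw [h0] at h1
      have h2 := h1 i (by simpa using hi)
      simp only [shiftAct] at h2 ⊢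
      rw [← h2]
      congr 1
      ring

end recur

section sequence
variable {κ : Type}

/-- a stage of the construction -/
structure St (c : ℕ → κ) (M : Set (ℕ → κ)) (A : κ) where
  E : Finset ℕ
  ζ : ℕ → κ
  a : ℕ
  hζ : ζ ∈ M
  hA : ζ 0 = A
  hE : ∀ e ∈ E, c e = A ∧ ζ e = A

theorem step (c : ℕ → κ) (M : Set (ℕ → κ)) (A : κ)
    (hM : ∀ ζ ∈ M, ∀ (L : ℕ) (D : Finset ℕ) (B : ℕ), ∃ b, B < b ∧ (∀ i < L, c (2 ^ i * b) = ζ i) ∧
      ∃ ζ' ∈ M, (∀ i < L, ζ' i = ζ i) ∧ ∀ d ∈ D, ∀ i < L, ζ' (2 ^ d * b + i) = ζ i)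
    (s : St c M A) : ∃ s' : St c M A, s.a < s'.a ∧
      s'.E = s.E ∪ (insert 0 s.E).image (fun d => 2 ^ d * s'.a) := by
  classical
  obtain ⟨b, hb, hc, ζ', hζ', h1, h2⟩ := hM s.ζ s.hζ (s.E.sup id + 1) (insert 0 s.E) s.a
  have hlt : ∀ e ∈ s.E, e < s.E.sup id + 1 := fun e he =>
    Nat.lt_succ_of_le (Finset.le_sup (f := id) he)
  have hlt' : ∀ e ∈ insert 0 s.E, e < s.E.sup id + 1 := by
    intro e he
    rcases Finset.mem_insert.1 he with rfl | he
    · omega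
    · exact hlt e he
  refine ⟨⟨s.E ∪ (insert 0 s.E).image (fun d => 2 ^ d * b), ζ', b, hζ', ?_, ?_⟩, hb, rfl⟩
  · rw [h1 0 (by omega), s.hA]
  · intro e he
    rcases Finset.mem_union.1 he with he | he
    · exact ⟨(s.hE e he).1, by rw [h1 e (hlt e he)]; exact (s.hE e he).2⟩
    · obtain ⟨d, hd, rfl⟩ := Finset.mem_image.1 he
      refine ⟨?_, ?_⟩
      · rw [hc d (hlt' d hd)]
        rcases Finset.mem_insert.1 hd with rfl | hd
        · exact s.hA
        · exact (s.hE d hd).2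
      · have := h2 d hd 0 (by omega)
        rw [add_zero] at this
        rw [this, s.hA]

/-- **The infinite pattern.** -/
theorem exists_seq [Finite κ] (c : ℕ → κ) : ∃ (A : κ) (a : ℕ → ℕ) (E : ℕ → Finset ℕ),
    StrictMono a ∧ E 0 = {a 0} ∧
    (∀ n, E (n + 1) = E n ∪ (insert 0 (E n)).image (fun d => 2 ^ d * a (n + 1))) ∧
    ∀ n, ∀ e ∈ E n, c e = A := by
  classical
  let _ : TopologicalSpace κ := ⊥
  have : DiscreteTopology κ := ⟨rfl⟩
  obtain ⟨M, ⟨ζ, hζ⟩, hM⟩ := recurrence c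
  choose f hf1 hf2 using step c M (ζ 0) hM
  let s0 : St c M (ζ 0) := ⟨∅, ζ, 0, hζ, rfl, by simp⟩
  let S : ℕ → St c M (ζ 0) := fun n => Nat.rec s0 (fun _ s => f s) n
  have hS : ∀ n, S (n + 1) = f (S n) := fun n => rfl
  refine ⟨ζ 0, fun n => (S (n + 1)).a, fun n => (S (n + 1)).E, ?_, ?_, ?_, ?_⟩
  · refine strictMono_nat_of_lt_succ fun n => ?_
    show (S (n + 1)).a < (S (n + 2)).a
    rw [hS (n + 1)]
    exact hf1 _
  · have h1 : (S 1).E = s0.E ∪ (insert 0 s0.E).image (fun d => 2 ^ d * (S 1).a) := hf2 s0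
    have h2 : s0.E = ∅ := rfl
    show (S 1).E = {(S 1).a}
    rw [h1, h2]
    simp
  · intro n
    exact hf2 (S (n + 1))
  · intro n e he
    exact ((S (n + 1)).hE e he).1

end sequence

end Pool.Agent.P8H31.ExpIP
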